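import Pool.Agent.Q84.UF.Final

/-!
# Rational points of varieties with moves without common invariants

Let `X` be a variety over an infinite field `k` (for example a number field) with function field
`K`. A move is a rational map `f : X × 𝔸^n ⇢ X` over `k` such that the general point `x` of `X` is
in the closure of the unirational subvariety `f(x, 𝔸^n)`.

If `X` has a family of moves without nonconstant common invariants, for example (in characteristic
zero) if `X` has rational fibrations whose generic fibres are quadrics, cubic hypersurfaces with
irreducible generic tangent sections, double spaces branched in quartics, or become unirational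
over `k(X)`, such that only the constants are algebraic over all the function fields of the bases,
then there is a nonempty open set `V` of `X` such that for every extension `F` of `k` the existence
of one `F`-point in `V`, the density of the `F`-points and the existence of a unirational
parametrization over `F` are equivalent. In particular the points over some finite extension of
`k` are dense.
-/

set_option autoImplicit false

namespace Pool.Agent.Results.MP_b62148_ag.MovesWithoutInvariants

open Pool.Agent.Q84.UF AlgebraicGeometry CategoryTheory
open Pool.Agent.TH178.HI (HasFunctionField)
open Pool.Agent.Y742.HC (HasPointIn DensePointsOver GoodL sFgs)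

/-- One general point is enough: there is a nonempty open set `V` such that for all extensions `F`
of `k` an `F`-point in `V` exists if and only if the `F`-points are dense, if and only if there is
a unirational parametrization over `F`; and for some finite extension `F` the `F`-points are
dense. -/
def OnePointSuffices (k : Type) [Field k] (X : Scheme.{0}) (p : X ⟶ Spec (CommRingCat.of k))
    [IsIntegral X] (K : Type) [Field K] [Algebra k K] : Prop :=
  (∃ V : X.Opens, (V : Set X).Nonempty ∧ ∀ (F : Type) [Field F] [Algebra k F],
    [HasPointIn X p V F, DensePointsOver X p F, ∃ n : ℕ, Nonempty (K →ₐ[k] RF n F)].TFAE) ∧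
  ∃ (F : Type) (_ : Field F) (_ : Algebra k F) (_ : FiniteDimensional k F), DensePointsOver X p F

theorem result (k : Type) [Field k] [Infinite k] (X : Scheme.{0})
    (p : X ⟶ Spec (CommRingCat.of k)) [IsIntegral X] [LocallyOfFiniteType p] (K : Type) [Field K]
    [Algebra k K] (hX : HasFunctionField k X p K) :
    (∀ (I : Type) (n : I → ℕ) (φ : ∀ i, K →ₐ[k] RF (n i) K), (∀ i, IsMove (φ i)) →
      (∀ c, (∀ i, φ i c = algebraMap K (RF (n i) K) c) → c ∈ Set.range (algebraMap k K)) →
      OnePointSuffices k X p K) ∧
    (∀ [CharZero k] (I : Type) (L : I → IntermediateField k K),
      (∀ i, Uni (L i) ∨ QuadricOver (L i) K ∨ CubicOver (L i) K ∨ QuarticDoubleOver (L i) K) →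
      (∀ c : K, (∀ i, IsAlgebraic (L i) c) → c ∈ Set.range (algebraMap k K)) →
      OnePointSuffices k X p K) := by
  have hfg := sFgs k X p K hX
  have key : Uni (⊥ : IntermediateField k K) → OnePointSuffices k X p K := by
    intro h
    have h1 := goodL_of_uni hfg h
    exact ⟨h1.opens X p hX, h1.potential X p hX⟩
  constructor
  · intro I n φ h1 h2
    have h3 := uni_invariants hfg φ h1
    have h4 : invariants φ = ⊥ := by
      rw [eq_bot_iff]
      intro c hc
      exact IntermediateField.mem_bot.2 (h2 c hc)
    rw [h4] at h3
    exact key h3
  · intro _ I L hL hinv
    refine key (uni_bot_of_moves hfg L (fun i => ?_) hinv)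
    rcases hL i with h | h | h | h
    · exact HasMove.of_uni h
    · exact HasMove.quadric h
    · exact HasMove.cubic h
    · exact HasMove.double h

end Pool.Agent.Results.MP_b62148_ag.MovesWithoutInvariants
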