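import Pool.Agent.Q83.MV.Dens

/-!
# Density of the rational points of hypersurfaces which are quadratic in each block of variables

`K` is a number field, or any field which is dense in a complete field `L` (with a nontrivial
absolute value, archimedean or not), and `X : F = 0` is a hypersurface whose equation has degree at
most two in each of `r + 1` disjoint blocks of variables, which together are all the variables. The
main example is the (cone over the) hypersurface of multidegree `(2, …, 2)` in a product
`ℙ^{n₀} × … × ℙ^{n_r}` of projective spaces with `n₀ ≥ 2`, `n_i ≥ 1`. It is rationally connected,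
and a bundle of quadrics in `r + 1` ways; for `r = 1`, `n₀ = n₁ = 2` a conic bundle over `ℙ²` with
discriminant of degree six, for `n = (2, 1, …, 1)` a conic bundle over `(ℙ¹)^r` with discriminant
of multidegree `(6, …, 6)`.

Two points of `X` are called neighbours in the block `k` if they differ only in this block and if
the line through them is not tangent to `X`. A point `T` is good for `r = 0` if it has a neighbour
in the block `0`, and it is good for `r = k + 1` if it is good for `k`, and has a neighbour `T'` in
the block `k + 1` which is also good for `k`, such that the gradients of `F` at `T` and `T'` with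
respect to the variables of the blocks `0, …, k` are not proportional. For example, a point `(x, y)`
of a hypersurface of bidegree `(2, 2)` is good if there is a point `y' ≠ y` on the quadric
`F(x, ·) = 0`, outside its tangent hyperplane at `y`, such that the quadrics `F(·, y) = 0` and
`F(·, y') = 0` are smooth at `x`, with different tangent hyperplanes.

**Theorem.** Let `T` be a good `K`-rational point, or more generally a good `L`-rational point of
`X` which is a limit of `K`-rational points. Then the `K`-rational points of `X` in each
neighbourhood of `T` in `X(L)` are Zariski dense in `X`, if `X` is irreducible over `K`. In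
particular, `X(K)` is Zariski dense, without any extension of the field `K`.

Idea of the proof. A rational point can be moved to the second intersection of `X` with each
rational line through it on which only the variables of one block vary. If the `L`-rational points
in a neighbourhood of `T` which differ from each other only in the first blocks are connected by
moves of this kind, and the same holds near `T'`, then one can change the coordinates in the next
block near `T` by going to a neighbourhood of `T'`, moving there with the first blocks only,
and coming back.
-/

set_option autoImplicit false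

namespace Pool.Agent.Results.MP_b62148_ag.MultiquadraticHypersurfaces

open MvPolynomial Topology

/-- `T` and `T'` are points of the hypersurface `F = 0` which differ only in the variables of the
block number `k` (`b a` is the number of the block of the variable `a`), and the line through them
is not tangent to the hypersurface at `T`. -/
def Neighbours {E : Type} [Field E] {α : Type} [Fintype α] (F : MvPolynomial α E) (b : α → ℕ)
    (k : ℕ) (T T' : α → E) : Prop :=
  eval T F = 0 ∧ eval T' F = 0 ∧ (∀ a, b a ≠ k → T' a = T a) ∧
    ∑ a, (T' a - T a) * eval T (pderiv a F) ≠ 0

/-- Good points: `T` is good for `k = 0` if it has a neighbour in the block `0`; it is good for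
`k + 1` if it is good for `k` and has a neighbour `T'` in the block `k + 1` which is good for `k`,
such that the gradients of `F` at `T` and `T'` with respect to the variables of the blocks
`0, …, k` are not proportional (one of the two by two minors is not zero). -/
def Good {E : Type} [Field E] {α : Type} [Fintype α] (F : MvPolynomial α E) (b : α → ℕ) :
    ℕ → (α → E) → Prop
  | 0, T => ∃ T', Neighbours F b 0 T T'
  | k + 1, T => Good F b k T ∧ ∃ T', Neighbours F b (k + 1) T T' ∧ Good F b k T' ∧
      ∃ a a', b a ≤ k ∧ b a' ≤ k ∧ eval T (pderiv a F) * eval T' (pderiv a' F) ≠
        eval T (pderiv a' F) * eval T' (pderiv a F)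

lemma good_iff {E : Type} [Field E] {α : Type} [Fintype α] (F : MvPolynomial α E) (b : α → ℕ)
    (k : ℕ) : ∀ T : α → E, Good F b k T ↔ Pool.Agent.Q83.MV.Good F b k T := by
  induction k with
  | zero => exact fun T => Iff.rfl
  | succ k ih =>
    intro T
    simp only [Good, Pool.Agent.Q83.MV.Good, ih]
    rfl

theorem result (K : Type) [Field K] (L : Type) [NontriviallyNormedField L] [CompleteSpace L]
    (σ : K →+* L) (hσ : DenseRange σ) (α : Type) [Fintype α] (b : α → ℕ) (r : ℕ)
    (hb : ∀ a, b a ≤ r) (F : MvPolynomial α K) (hirr : Irreducible F)
    (hF : ∀ k ≤ r, ∀ m ∈ F.support, ∑ a with b a = k, m a ≤ 2) :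
    (∀ T : α → K, Good F b r T →
      ∀ U ∈ 𝓝 (fun a => σ (T a)), ∀ g : MvPolynomial α K,
        (∀ z : α → K, eval z F = 0 → (fun a => σ (z a)) ∈ U → eval z g = 0) → F ∣ g) ∧
    (∀ T : α → L, T ∈ closure {S : α → L | ∃ z : α → K, eval z F = 0 ∧ S = fun a => σ (z a)} →
      Good (map σ F) b r T →
      ∀ U ∈ 𝓝 T, ∀ g : MvPolynomial α K,
        (∀ z : α → K, eval z F = 0 → (fun a => σ (z a)) ∈ U → eval z g = 0) → F ∣ g) := by
  have h2 : ∀ T : α → L, T ∈ closure {S : α → L | ∃ z : α → K, eval z F = 0 ∧
      S = fun a => σ (z a)} → Good (map σ F) b r T → ∀ U ∈ 𝓝 T, ∀ g : MvPolynomial α K,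
        (∀ z : α → K, eval z F = 0 → (fun a => σ (z a)) ∈ U → eval z g = 0) → F ∣ g :=
    fun T hTc hT U hU g hg =>
      Pool.Agent.Q83.MV.dense_good σ hσ r hb hF hirr hTc ((good_iff _ _ _ _).1 hT) hU g hg
  refine ⟨fun T hT U hU g hg => h2 _ ?_ ?_ U hU g hg, h2⟩
  · exact subset_closure ⟨T, Pool.Agent.Q83.MV.Good.eval_eq _ _ _ _ ((good_iff _ _ _ _).1 hT), rfl⟩
  · exact (good_iff _ _ _ _).2 (((good_iff _ _ _ _).1 hT).map σ)

end Pool.Agent.Results.MP_b62148_ag.MultiquadraticHypersurfaces
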